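import Pool.Agent.V11256.DistA

/-!
# A Borel graph with finite distinguishing number and Borel distinguishing number `2^ℵ₀`

The vertices are the codes `x` of the graphs on `ℤ` which have the extension property of the
random graph and are not invariant under any nonzero translation; the translates of `x` by `i` and
by `j` are adjacent if `i` and `j` are adjacent in the graph coded by `x`. So every component is a
copy of the random graph. By a Baire category argument, for every Borel colouring with
countably many colours some component is a homogeneous coloured graph, hence the colouring is not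
distinguishing. On the other hand the random graph has continuum many pairwise nonisomorphic
rigid colourings with three colours.
-/

namespace Pool.Agent.Results.MP_591151_lc.FiniteVsContinuum

open Set Topology Filter MeasureTheory Cardinal
open Pool.Agent.V11256.Rado Pool.Agent.V11256.Dist

section Defs

variable {X : Type}

/-- `φ` is an automorphism of the graph with edge relation `G` (not required to be Borel). -/
def IsAut (G : Set (X × X)) (φ : Equiv.Perm X) : Prop :=
  ∀ x y, (x, y) ∈ G ↔ (φ x, φ y) ∈ G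

/-- The map `c` is distinguishing: no nontrivial automorphism preserves every colour. -/
def IsDistinguishing (G : Set (X × X)) {I : Type} (c : X → I) : Prop :=
  ∀ φ : Equiv.Perm X, IsAut G φ → φ ≠ 1 → ∃ x, c x ≠ c (φ x)

/-- The distinguishing number. -/
noncomputable def distNumber (G : Set (X × X)) : Cardinal :=
  sInf {κ | ∃ (I : Type) (c : X → I), IsDistinguishing G c ∧ κ = #I}

/-- The Borel distinguishing number. -/
noncomputable def borelDistNumber [MeasurableSpace X] (G : Set (X × X)) : Cardinal :=
  sInf {κ | ∃ (I : Type) (_ : MeasurableSpace I) (_ : StandardBorelSpace I) (c : X → I),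
    Measurable c ∧ IsDistinguishing G c ∧ κ = #I}

end Defs

/-- The edge relation. -/
def G : Set (V × V) := {p | ∃ k : ℤ, p.2.1 = sh k p.1.1 ∧ adj p.1.1 0 k}

/-- The translate of a vertex. -/
def tr (x : V) (i : ℤ) : V := ⟨sh i x.1, sh_mem_V i x.2⟩

theorem tr_inj (x : V) {i j : ℤ} (h : tr x i = tr x j) : i = j :=
  sh_inj x.2 (congrArg Subtype.val h)

theorem tr_zero (x : V) : tr x 0 = x := Subtype.ext (sh_zero x.1)

theorem tr_tr (x : V) (i j : ℤ) : tr (tr x i) j = tr x (j + i) := Subtype.ext (sh_sh j i x.1)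

theorem mem_G_tr (x : V) (i j : ℤ) : (tr x i, tr x j) ∈ G ↔ adj x.1 i j := by
  constructor
  · rintro ⟨k, hk, hadj⟩
    have h1 : tr x j = tr (tr x i) k := Subtype.ext hk
    rw [tr_tr] at h1
    have h2 := tr_inj x h1
    have h3 : adj (sh i x.1) 0 k := hadj
    rw [adj_sh, zero_add, ← h2] at h3
    exact h3
  · intro h
    refine ⟨j - i, ?_, ?_⟩
    · show sh j x.1 = sh (j - i) (sh i x.1)
      rw [sh_sh, sub_add_cancel]
    · show adj (sh i x.1) 0 (j - i)
      rw [adj_sh, zero_add, sub_add_cancel]
      exact h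

theorem G_orbit {x y : V} (h : (x, y) ∈ G) : ∃ k, y = tr x k := by
  obtain ⟨k, hk, -⟩ := h
  exact ⟨k, Subtype.ext hk⟩

theorem measurableSet_G : MeasurableSet G := by
  have : G = ⋃ k : ℤ, ({p : V × V | p.2.1 = sh k p.1.1} ∩ {p : V × V | adj p.1.1 0 k}) := by
    ext p
    simp only [G, mem_ofPred_eq, mem_iUnion, mem_inter_iff]
  rw [this]
  refine MeasurableSet.iUnion fun k => MeasurableSet.inter ?_ ?_
  · exact measurableSet_eq_fun (measurable_subtype_coe.comp measurable_snd)
      ((continuous_sh k).measurable.comp (measurable_subtype_coe.comp measurable_fst))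
  · exact (isOpen_adj 0 k).measurableSet.preimage (measurable_subtype_coe.comp measurable_fst)

theorem G_symm {x y : V} (h : (x, y) ∈ G) : (y, x) ∈ G := by
  obtain ⟨k, rfl⟩ := G_orbit h
  rw [← tr_zero x, tr_tr, mem_G_tr] at h
  have h2 := (mem_G_tr x k 0).mpr (by simpa using adj_symm _ _ _ h)
  rwa [tr_zero] at h2

theorem G_irrefl (x : V) : (x, x) ∉ G := by
  intro h
  have h2 : (tr x 0, tr x 0) ∈ G := by rwa [tr_zero]
  rw [mem_G_tr] at h2
  exact adj_irr _ _ h2

/-! ### Borel colourings with countably many colours are not distinguishing -/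

theorem not_distinguishing {I : Type} [MeasurableSpace I] [StandardBorelSpace I] [Countable I]
    (c : V → I) (hc : Measurable c) : ¬ IsDistinguishing G c := by
  classical
  intro hdist
  -- colour classes are equal to open sets modulo meager sets
  have hC : ∀ n : I, MeasurableSet (Subtype.val '' (c ⁻¹' {n})) := fun n =>
    MeasurableSet.subtype_image measurableSet_V (hc (measurableSet_singleton n))
  choose U hUo hU using fun n => (hC n).residualEq_isOpen
  have hR : ∀ᵇ x : Om, ∀ n : I, (x ∈ Subtype.val '' (c ⁻¹' {n}) ↔ x ∈ U n) := by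
    rw [eventually_countable_forall]
    intro n
    exact (hU n).mem_iff
  have hR' : ∀ᵇ x : Om, ∀ k : ℤ, ∀ n : I,
      (sh k x ∈ Subtype.val '' (c ⁻¹' {n}) ↔ sh k x ∈ U n) := by
    rw [eventually_countable_forall]
    intro k
    have h1 : Tendsto (sh k) (residual Om) (residual Om) := by
      have := (shH k).residual_map_eq
      exact this.le
    exact h1.eventually hR
  have hgen : ∀ᵇ x : Om, ∀ n : {n : I // (U n).Nonempty},
      ∀ p : {p : Finset ℤ × Finset ℤ // Disjoint p.1 p.2}, x ∈ D (U n.1) p.1.1 p.1.2 := by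
    rw [eventually_countable_forall]
    intro n
    rw [eventually_countable_forall]
    intro p
    exact D_residual (hUo n) n.2 _ _ p.2
  obtain ⟨x, hxR, hxgen, hxV⟩ :=
    (dense_of_mem_residual (hR'.and (hgen.and V_residual))).nonempty
  let v : V := ⟨x, hxV⟩
  let γ : ℤ → I := fun k => c (tr v k)
  have hγ : ∀ k, sh k x ∈ U (γ k) := by
    intro k
    rw [← hxR k (γ k)]
    exact ⟨tr v k, rfl, rfl⟩
  have hext : CExt (adj x) γ := by
    intro A B hAB m
    obtain ⟨k, h1, h2, h3, h4, h5⟩ := hxgen ⟨γ m, ⟨_, hγ m⟩⟩ ⟨(A, B), hAB⟩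
    refine ⟨k, h1, h2, ?_, h4, h5⟩
    obtain ⟨w, hw1, hw2⟩ := (hxR k (γ m)).mpr h3
    have : w = tr v k := Subtype.ext hw2
    rw [this] at hw1
    exact hw1
  obtain ⟨k, hk0, -, hkγ, -, -⟩ := hext {0} ∅ (by simp) 0
  have hk : k ≠ 0 := by simpa using hk0
  obtain ⟨f, hf1, hf2, hf3⟩ := exists_aut (adj_symm x) (adj_irr x) hext 0 k hkγ.symm
  -- the automorphism
  let ψ : Equiv.Perm ℤ → V → V := fun g y => if h : ∃ i, y = tr v i then tr v (g h.choose) else y
  have hψ1 : ∀ (g : Equiv.Perm ℤ) i, ψ g (tr v i) = tr v (g i) := by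
    intro g i
    have h : ∃ j, tr v i = tr v j := ⟨i, rfl⟩
    have h1 : ψ g (tr v i) = tr v (g h.choose) := dif_pos h
    rw [h1, ← tr_inj v h.choose_spec]
  have hψ2 : ∀ (g : Equiv.Perm ℤ) y, (¬ ∃ i, y = tr v i) → ψ g y = y := fun g y h => dif_neg h
  have hψ3 : ∀ (g g' : Equiv.Perm ℤ) y, (∀ i, g (g' i) = i) → ψ g (ψ g' y) = y := by
    intro g g' y hg
    by_cases h : ∃ i, y = tr v i
    · obtain ⟨i, rfl⟩ := h
      rw [hψ1, hψ1, hg]
    · rw [hψ2 g' y h, hψ2 g y h]
  let φ : Equiv.Perm V :=
    { toFun := ψ f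
      invFun := ψ f.symm
      left_inv := fun y => hψ3 _ _ y (fun i => f.symm_apply_apply i)
      right_inv := fun y => hψ3 _ _ y (fun i => f.apply_symm_apply i) }
  have hφ1 : ∀ i, φ (tr v i) = tr v (f i) := hψ1 f
  have hφ2 : ∀ y, (¬ ∃ i, y = tr v i) → φ y = y := hψ2 f
  have haut : IsAut G φ := by
    intro y z
    by_cases hy : ∃ i, y = tr v i
    · obtain ⟨i, rfl⟩ := hy
      by_cases hz : ∃ j, z = tr v j
      · obtain ⟨j, rfl⟩ := hz
        rw [hφ1, hφ1, mem_G_tr, mem_G_tr]
        exact hf1 i j
      · rw [hφ2 z hz, hφ1]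
        constructor
        · intro h
          obtain ⟨k, hk⟩ := G_orbit h
          rw [tr_tr] at hk
          exact absurd ⟨_, hk⟩ hz
        · intro h
          obtain ⟨k, hk⟩ := G_orbit h
          rw [tr_tr] at hk
          exact absurd ⟨_, hk⟩ hz
    · rw [hφ2 y hy]
      by_cases hz : ∃ j, z = tr v j
      · obtain ⟨j, rfl⟩ := hz
        rw [hφ1]
        constructor
        · intro h
          obtain ⟨k, hk⟩ := G_orbit (G_symm h)
          rw [tr_tr] at hk
          exact absurd ⟨_, hk⟩ hy
        · intro h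
          obtain ⟨k, hk⟩ := G_orbit (G_symm h)
          rw [tr_tr] at hk
          exact absurd ⟨_, hk⟩ hy
      · rw [hφ2 z hz]
  have hne : φ ≠ 1 := by
    intro h
    have h1 : φ (tr v 0) = tr v 0 := by rw [h]; rfl
    rw [hφ1, hf3] at h1
    exact hk (tr_inj v h1)
  obtain ⟨y, hy⟩ := hdist φ haut hne
  apply hy
  by_cases h : ∃ i, y = tr v i
  · obtain ⟨i, rfl⟩ := h
    rw [hφ1]
    exact (hf2 i).symm
  · rw [hφ2 y h]

/-! ### A distinguishing map with three colours -/

/-- The orbit equivalence relation. -/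
def orb : Setoid V where
  r x y := ∃ k, y = tr x k
  iseqv :=
    { refl := fun x => ⟨0, (tr_zero x).symm⟩
      symm := by
        rintro x y ⟨k, rfl⟩
        exact ⟨-k, by rw [tr_tr, neg_add_cancel, tr_zero]⟩
      trans := by
        rintro x y z ⟨k, rfl⟩ ⟨l, rfl⟩
        exact ⟨l + k, by rw [tr_tr]⟩ }

theorem exists_three : ∃ c : V → Fin 3, IsDistinguishing G c := by
  classical
  -- a separating induced ray in every graph
  have hray : ∀ x : V, ∃ a : ℕ → ℤ, Function.Injective a ∧
      (∀ m n, m < n → (adj x.1 (a n) (a m) ↔ n = m + 1)) ∧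
      ∀ u v, u ∉ range a → v ∉ range a → u ≠ v → ∃ n, adj x.1 (a n) u ∧ ¬ adj x.1 (a n) v :=
    fun x => exists_ray (adj_symm x.1) x.2.2
  choose a ha1 ha2 ha3 using hray
  -- symmetric form of the adjacency on the ray
  have ha2' : ∀ (x : V) m n, adj x.1 (a x m) (a x n) ↔ (m = n + 1 ∨ n = m + 1) := by
    intro x m n
    rcases lt_trichotomy m n with h | h | h
    · constructor
      · intro h1
        exact Or.inr ((ha2 x m n h).mp (adj_symm _ _ _ h1))
      · intro h1
        exact adj_symm _ _ _ ((ha2 x m n h).mpr (by omega))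
    · subst h
      exact ⟨fun h => absurd h (adj_irr _ _), fun h => by omega⟩
    · constructor
      · intro h1
        exact Or.inl ((ha2 x n m h).mp h1)
      · intro h1
        exact (ha2 x n m h).mpr (by omega)
  -- codes
  let cd : ℕ ≃ ℤ × ℤ := (Denumerable.eqv (ℤ × ℤ)).symm
  -- the colouring of the integers given by a representative
  let col : V → ℤ → Fin 3 := fun x i =>
    if h : ∃ n, a x n = i then (if x.1 (cd h.choose) = true then 2 else 1) else 0
  have hcol0 : ∀ x i, col x i = 0 ↔ i ∉ range (a x) := by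
    intro x i
    by_cases h : ∃ n, a x n = i
    · have h1 : col x i = if x.1 (cd h.choose) = true then 2 else 1 := dif_pos h
      rw [h1]
      constructor
      · intro h2
        split_ifs at h2 <;> simp at h2
      · intro h2
        exact absurd h h2
    · have h1 : col x i = 0 := dif_neg h
      exact ⟨fun _ => h, fun _ => h1⟩
  have hcol1 : ∀ x n, col x (a x n) = if x.1 (cd n) = true then 2 else 1 := by
    intro x n
    have h : ∃ m, a x m = a x n := ⟨n, rfl⟩
    have h1 : col x (a x n) = if x.1 (cd h.choose) = true then 2 else 1 := dif_pos h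
    rw [h1, ha1 x h.choose_spec]
  -- representatives
  let rep : V → V := fun y => (Quotient.mk orb y).out
  have hrep : ∀ y, ∃ i, y = tr (rep y) i := by
    intro y
    have : orb.r (rep y) y := Quotient.exact (Quotient.out_eq (Quotient.mk orb y))
    exact this
  choose ix hix using hrep
  have hrep2 : ∀ y k, rep (tr y k) = rep y := by
    intro y k
    have : Quotient.mk orb (tr y k) = Quotient.mk orb y := by
      refine Quotient.sound ?_
      exact orb.iseqv.symm ⟨k, rfl⟩
    show (Quotient.mk orb (tr y k)).out = (Quotient.mk orb y).out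
    rw [this]
  let c : V → Fin 3 := fun y => col (rep y) (ix y)
  have hc : ∀ y i, rep y = y → c (tr y i) = col y i := by
    intro y i hy
    show col (rep (tr y i)) (ix (tr y i)) = col y i
    have h1 := hix (tr y i)
    rw [hrep2, hy] at h1 ⊢
    rw [← tr_inj y h1]
  refine ⟨c, fun φ hφ hne => ?_⟩
  by_contra hcon
  push Not at hcon
  apply hne
  -- adjacency of translates
  have hconn : ∀ (y : V) (i j : ℤ), ∃ k, φ (tr y i) = tr (φ (tr y j)) k := by
    intro y i j
    by_cases hij : i = j
    · subst hij
      exact ⟨0, (tr_zero _).symm⟩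
    obtain ⟨m, -, -, h3, -⟩ := y.2.2 {i, j} ∅ (by simp)
    have h4 : (tr y m, tr y i) ∈ G := (mem_G_tr y m i).mpr (h3 i (by simp))
    have h5 : (tr y j, tr y m) ∈ G := (mem_G_tr y j m).mpr (adj_symm _ _ _ (h3 j (by simp)))
    obtain ⟨k1, hk1⟩ := G_orbit ((hφ _ _).mp h4)
    obtain ⟨k2, hk2⟩ := G_orbit ((hφ _ _).mp h5)
    exact ⟨k1 + k2, by rw [hk1, hk2, tr_tr]⟩
  have hmain : ∀ y : V, rep y = y → ∀ i, φ (tr y i) = tr y i := by
    intro y hy
    set z : V := rep (φ y) with hz
    have hzz : rep z = z := by
      have := hrep2 z (ix (φ y))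
      rw [hz, ← hix (φ y)] at this
      exact this.symm
    have hf : ∀ i, ∃ j, φ (tr y i) = tr z j := by
      intro i
      obtain ⟨k, hk⟩ := hconn y i 0
      rw [tr_zero] at hk
      refine ⟨k + ix (φ y), ?_⟩
      rw [hk, ← tr_tr, hz, ← hix (φ y)]
    choose f hf using hf
    have hfadj : ∀ i j, adj y.1 i j ↔ adj z.1 (f i) (f j) := by
      intro i j
      rw [← mem_G_tr y, ← mem_G_tr z, ← hf i, ← hf j]
      exact hφ _ _
    have hfcol : ∀ i, col z (f i) = col y i := by
      intro i
      rw [← hc z (f i) hzz, ← hc y i hy, ← hf i]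
      exact (hcon _).symm
    have hfinj : Function.Injective f := by
      intro i j hij
      have h1 : φ (tr y i) = φ (tr y j) := by rw [hf, hf, hij]
      exact tr_inj y (φ.injective h1)
    have hfsurj : Function.Surjective f := by
      intro j
      -- the preimage of `tr z j` lies in the orbit of `y`
      have hauts : ∀ p q : V, (p, q) ∈ G ↔ (φ.symm p, φ.symm q) ∈ G := by
        intro p q
        rw [hφ (φ.symm p), φ.apply_symm_apply, φ.apply_symm_apply]
      by_cases hj : j = f 0
      · exact ⟨0, hj.symm⟩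
      obtain ⟨m, -, -, h3, -⟩ := z.2.2 {j, f 0} ∅ (by simp)
      have h4 : (tr z m, tr z j) ∈ G := (mem_G_tr z m j).mpr (h3 j (by simp))
      have h5 : (tr z (f 0), tr z m) ∈ G :=
        (mem_G_tr z _ m).mpr (adj_symm _ _ _ (h3 (f 0) (by simp)))
      obtain ⟨k1, hk1⟩ := G_orbit ((hauts _ _).mp h4)
      obtain ⟨k2, hk2⟩ := G_orbit ((hauts _ _).mp h5)
      have h6 : φ.symm (tr z (f 0)) = tr y 0 := by rw [← hf 0, φ.symm_apply_apply]
      rw [h6, tr_tr] at hk2
      rw [hk2, tr_tr] at hk1
      refine ⟨k1 + (k2 + 0), ?_⟩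
      have h7 : tr z (f (k1 + (k2 + 0))) = tr z j := by
        rw [← hf, ← hk1, φ.apply_symm_apply]
      exact tr_inj z h7
    -- the map on the rays
    have hg : ∀ n, ∃ m, f (a y n) = a z m := by
      intro n
      have h1 : col z (f (a y n)) ≠ 0 := by
        rw [hfcol]
        intro h2
        exact (hcol0 y _).mp h2 ⟨n, rfl⟩
      by_contra h3
      push Not at h3
      exact h1 ((hcol0 z _).mpr (by rintro ⟨m, hm⟩; exact h3 m hm.symm))
    choose g hg using hg
    have hginj : Function.Injective g := by
      intro m n hmn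
      have : f (a y m) = f (a y n) := by rw [hg, hg, hmn]
      exact ha1 y (hfinj this)
    have hgsurj : Function.Surjective g := by
      intro m
      obtain ⟨i, hi⟩ := hfsurj (a z m)
      have h1 : col y i ≠ 0 := by
        rw [← hfcol, hi]
        intro h2
        exact (hcol0 z _).mp h2 ⟨m, rfl⟩
      have h2 : i ∈ range (a y) := by
        by_contra h3
        exact h1 ((hcol0 y i).mpr h3)
      obtain ⟨n, rfl⟩ := h2
      rw [hg] at hi
      exact ⟨n, ha1 z hi⟩
    have hgid : ∀ n, g n = n := by
      refine ray_rigid g hginj hgsurj (fun m n => ?_)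
      rw [← ha2' y m n, ← ha2' z (g m) (g n), ← hg m, ← hg n]
      exact hfadj _ _
    have hfa : ∀ n, f (a y n) = a z n := fun n => by rw [hg, hgid]
    have hyz : y = z := by
      apply Subtype.ext
      funext p
      obtain ⟨n, rfl⟩ := cd.surjective p
      have h1 := hfcol (a y n)
      rw [hfa, hcol1, hcol1] at h1
      cases h2 : z.1 (cd n) <;> cases h3 : y.1 (cd n) <;> simp [h2, h3] at h1 <;> rfl
    have hfid : ∀ i, f i = i := by
      intro i
      by_cases hi : i ∈ range (a y)
      · obtain ⟨n, rfl⟩ := hi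
        rw [hfa, ← hyz]
      · by_contra hne'
        have hfi : f i ∉ range (a y) := by
          rw [← hcol0]
          have h1 := hfcol i
          rw [← hyz, (hcol0 y i).mpr hi] at h1
          exact h1
        obtain ⟨n, hn1, hn2⟩ := ha3 y i (f i) hi hfi (Ne.symm hne')
        apply hn2
        have h1 := (hfadj (a y n) i).mp hn1
        rw [hfa, ← hyz] at h1
        exact h1
    intro i
    rw [hf i, hfid, ← hyz]
  ext1 y
  have h1 : rep (rep y) = rep y := by
    have h2 := hrep2 (rep y) (ix y)
    rw [← hix y] at h2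
    exact h2.symm
  have h2 := hmain (rep y) h1 (ix y)
  rw [← hix y] at h2
  exact h2

/-- **Main theorem.** There is a Borel graph whose distinguishing number is finite and whose Borel
distinguishing number is the continuum. -/
theorem result : ∃ (X : Type) (_ : MeasurableSpace X) (_ : StandardBorelSpace X)
    (E : Set (X × X)), MeasurableSet E ∧ (∀ x y, (x, y) ∈ E → (y, x) ∈ E) ∧
      (∀ x, (x, x) ∉ E) ∧ distNumber E < ℵ₀ ∧ borelDistNumber E = 𝔠 := by
  have hV : StandardBorelSpace V := measurableSet_V.standardBorel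
  refine ⟨V, inferInstance, hV, G, measurableSet_G, fun x y h => G_symm h, G_irrefl, ?_, ?_⟩
  · obtain ⟨c, hc⟩ := exists_three
    have h1 : distNumber G ≤ #(Fin 3) := csInf_le' ⟨Fin 3, c, hc, rfl⟩
    refine h1.trans_lt ?_
    rw [mk_fin]
    exact natCast_lt_aleph0 (n := 3)
  · have hbig : ∀ (I : Type) (_ : MeasurableSpace I) (_ : StandardBorelSpace I) (c : V → I),
        Measurable c → IsDistinguishing G c → #I = 𝔠 := by
      intro I _ _ c hc hd
      by_cases hI : Countable I
      · exact absurd hd (not_distinguishing c hc)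
      · have e : I ≃ ℝ := (PolishSpace.measurableEquivOfNotCountable hI
          (by rw [← mk_le_aleph0_iff, mk_real]; exact not_le.mpr aleph0_lt_continuum)).toEquiv
        rw [mk_congr e, mk_real]
    have hid : IsDistinguishing G (id : V → V) := by
      intro φ _ hne
      by_contra h
      push Not at h
      exact hne (Equiv.ext fun x => (h x).symm)
    have hmem : #V ∈ {κ : Cardinal | ∃ (I : Type) (_ : MeasurableSpace I)
        (_ : StandardBorelSpace I) (c : V → I),
        Measurable c ∧ IsDistinguishing G c ∧ κ = #I} :=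
      ⟨V, inferInstance, hV, id, measurable_id, hid, rfl⟩
    have hVc : #V = 𝔠 := hbig V inferInstance hV id measurable_id hid
    apply le_antisymm
    · refine (csInf_le' hmem).trans hVc.le
    · refine le_csInf ⟨#V, hmem⟩ ?_
      rintro κ ⟨I, h1, h2, c, h3, h4, rfl⟩
      exact (hbig I h1 h2 c h3 h4).ge

end Pool.Agent.Results.MP_591151_lc.FiniteVsContinuum
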